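import Mathlib
import Pool.Agent.TH216.MF.MotM

/-!
# The motivic monodromy conjecture at all points, for all polynomials with affinely independent
# exponents

Let `f = ∑_j c_j x ^ (m j)` be a polynomial over a field `k ⊂ ℂ` with `c_j ≠ 0` and at least two
monomials, whose exponent vectors are affinely independent. There is NO condition on the
exponents: `B1`-facets, non-isolated singularities and monomial factors are all allowed. Then at
every point `x` of `{f = 0}`, with coordinates in an arbitrary extension field `K` of `k`, the local
motivic zeta function `Z_{f,x}(T)` lies in the ring generated by `T` and finitely many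
`1 / (1 - 𝕃 ^ a T ^ b)` with `a < 0 < b` such that `a / b` is a root of the Bernstein-Sato polynomial
`b_f`.

Method. Expanding the powers of `f`, the functional equation of `b_f` becomes an identity in the ring
`ℂ[X_1, …, X_k]` (`X_j` counts the `j`-th monomial). It is turned into a multiplicative identity
for the series `∑_u q ^ (-|u|) F (⟨u, m_1⟩ - t, …, ⟨u, m_k⟩ - t)`, `F` a difference polynomial applied to
the Heaviside function of the orthant, for every integer `q ≥ 2`. On the other side, the classes of
the zero sets of the face polynomials in the tori satisfy linear relations, one for each variable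
which has exponent `1` in one monomial of a face and does not occur in the others; so the zeta
function is a combination of universal series in `q ^ (-1)` and `T`. The multiplicative identity
shows that for every `q ≥ 2` these universal series have no poles on `log |T| / log q = σ` if
`b_f(-σ) ≠ 0`, hence that the factors `1 - q ^ (-a) T ^ N` with `a / N = σ` cancel identically, and `q`
can be replaced by `𝕃`.
-/

set_option autoImplicit false

namespace Pool.Agent.Results.MP_b91a16_ag.AffinelyIndependent

open MvPolynomial Pool.Agent.W428.MOT Pool.Agent.W375.MG Pool.Agent.W425.MM Pool.Agent.W425.ND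

/-- **The motivic monodromy conjecture (Bernstein-Sato form) for all polynomials with affinely
independent exponents, at all points.**

`spa m c` is the polynomial `∑_j c_j x ^ (m j)`.
`IsBFunction f b` says that `b(s) f ^ s = P(s) f ^ (s + 1)` for a differential operator `P(s)` in the
Weyl algebra, polynomial in `s`; the Bernstein-Sato polynomial `b_f` is one of these polynomials
`b`. -/
theorem result (k : Type) [Field k] [Algebra k ℂ] {n r : ℕ}
    (hr : 2 ≤ r) (m : Fin r → Fin n → ℕ)
    (hm : AffineIndependent ℚ (fun (j : Fin r) (i : Fin n) => (m j i : ℚ)))
    (c : Fin r → k) (hc : ∀ j, c j ≠ 0) :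
    ∃ S : Finset (ℤ × ℤ),
      (∀ p ∈ S, p.1 < 0 ∧ 0 < p.2 ∧ ∀ b : Polynomial ℂ,
        Pool.Agent.H628R4.TP.IsBFunction (spa m (fun j => algebraMap k ℂ (c j))) b →
          b.eval ((p.1 : ℂ) / p.2) = 0) ∧
      ∀ (K : Type) [Field K] [Algebra k K] (x : Fin n → K),
        eval x (spa m (fun j => algebraMap k K (c j))) = 0 →
        zeta (spa m (fun j => algebraMap k K (c j))) x ∈ ratRing K S := by
  obtain ⟨S, hS, hz, -⟩ := Pool.Agent.TH216.MC.ind_mot (k := k) hr m hm c hc
  exact ⟨S, hS, fun K _ _ x _ => zeta_mem _ x S (fun W E hW hE => hz K W E hW hE)⟩

end Pool.Agent.Results.MP_b91a16_ag.AffinelyIndependent
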