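import Mathlib
import Pool.Agent.TH216.G3.HDG

/-!
# The motivic monodromy conjecture at all points, generic coefficients in at most three variables

Let `n ≤ 3` and let `f = ∑_j c_j x ^ (v j) + h` be a polynomial in `n` variables over a field `k ⊂ ℂ`,
where `h` is an ARBITRARY polynomial over a subfield `F ⊂ k` whose exponents are in the convex hull
of the `v j`, and the coefficients `c_j ∈ k` are generic: `g(c) ≠ 0` for a certain nonzero polynomial
`g` with coefficients in `F` (`k = F` is allowed). There is no condition on the convex hull of the
`v j`, the Newton polytope of `f`, except that it is not `{0}`; for instance the `v j` are its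
vertices, and only the coefficients at the vertices have to be generic. The singularities need
not be isolated, `f(0) = 0` is not assumed, and all `B1`-facets, compact or not, are allowed. Then
there is a finite set `S` of pairs `(a, b)`, `a < 0 < b`, such that `a / b` is a root of the
Bernstein-Sato polynomial of `f`, and such that at EVERY point `x` of `{f = 0}`, with coordinates in
any field `K ⊃ k` (for instance the residue field of a point of `{f = 0}`), the local motivic zeta
function of `f` at `x` lies in `M_K[T, 1 / (1 - 𝕃 ^ a T ^ b)]`, `(a, b) ∈ S`.

Method. If the `c_j` are algebraically independent over `F`, the functional equation of the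
Bernstein-Sato polynomial gives an identity in a polynomial ring with one variable for every `v j`.
It is extended to the further monomials (a filtration by the convex hull of the `v j`) and turned
into a multiplicative identity for the series `∑_u q ^ (-|u|) F (⟨u, m_1⟩ - t, …, ⟨u, m_k⟩ - t)`, `F` a
difference polynomial applied to the Heaviside function of the orthant, for every integer `q ≥ 2`.
On the other side, the classes of the zero sets of the face polynomials in the tori satisfy linear
relations, one for each variable which has exponent `1` in one monomial of a face and does not occur
in the others, and one for every pair of variables `x_i`, `x_k` such that `f` is in the ideal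
`(x_i, x_k)` (the part of `f` which is linear in `x_i`, `x_k` gives the classes over the locus
`x_i = x_k = 0`); so the zeta function is a combination of universal series in `q ^ (-1)` and
`T`, one for every set `J` of variables which vanish at the origin of the arcs. The multiplicative
identity shows that for every `q ≥ 2` these universal series have no poles on
`log |T| / log q = σ` if `-σ` is not a root, hence that the factors `1 - q ^ (-a) T ^ N` with
`a / N = σ` cancel identically, and `q` can be replaced by `𝕃`. For this the exponents are projected
to the variables in `J`, where a vertex can be the image of several exponents: for a facet of the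
projection with several exponents over a vertex which has exponent `1` in a variable, and for
the quadrangles with the vertices `(b, 0, 0)`, `(0, 0, b)`, `(1, 1, 0)`, `(0, 1, 1)`, `b ≥ 2`, the
candidate pole is shown to be a root; the other facets are simplices, or `B1` in a direction which is
constant around a vertex. Gröbner bases in the Weyl algebra over `F(c_1, …, c_r)` compare the generic
Bernstein-Sato polynomial with the one of a single member.
-/

set_option autoImplicit false

namespace Pool.Agent.Results.MP_b91a16_ag.GenericThreeVariables

open MvPolynomial Pool.Agent.W428.MOT Pool.Agent.W375.MG Pool.Agent.W425.MM Pool.Agent.TH216.HD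

/-- **The motivic monodromy conjecture (Bernstein-Sato form) at all points for the polynomials
`f = ∑_j c_j x ^ (v j) + h` in at most three variables with generic coefficients `c_j`; all Newton
polytopes.**

`poly v c h` is the polynomial `f = ∑_j c_j x ^ (v j) + h`. `InHull v w` says that the exponent `w` is
in the convex hull of the `v j`.

`zeta f x` is the local motivic zeta function `∑_{m ≥ 1} [X_{m,1,x}] 𝕃 ^ (-m n) T ^ m` of `f` at the point
`x`. The finite set `S` is the same for all the points over all the fields `K` which contain `k`.
`IsBFunction f b` says that `b(s) f ^ s = P(s) f ^ (s + 1)` for a differential operator `P(s)` in the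
Weyl algebra, polynomial in `s`; the Bernstein-Sato polynomial `b_f` is one of these polynomials
`b`. -/
theorem result (F : Type) [Field F] [Algebra F ℂ] {n r : ℕ} (hn : n ≤ 3) (v : Fin r → Fin n → ℕ)
    (hv : Function.Injective v) (hv1 : ∃ j, v j ≠ 0)
    (h : MvPolynomial (Fin n) F) (hh : ∀ w ∈ h.support, InHull v w) :
    ∃ g : MvPolynomial (Fin r) F, g ≠ 0 ∧
      ∀ (k : Type) [Field k] [Algebra F k] [Algebra k ℂ] [IsScalarTower F k ℂ] (c : Fin r → k),
      aeval c g ≠ 0 →
      ∃ S : Finset (ℤ × ℤ),
        (∀ p ∈ S, p.1 < 0 ∧ 0 < p.2 ∧ ∀ b : Polynomial ℂ,
          Pool.Agent.H628R4.TP.IsBFunction (poly v (fun j => algebraMap k ℂ (c j)) h) b →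
            b.eval ((p.1 : ℂ) / p.2) = 0) ∧
        ∀ (K : Type) [Field K] [Algebra k K] (x : Fin n → K),
          eval x (MvPolynomial.map (algebraMap k K) (poly v c h)) = 0 →
          zeta (MvPolynomial.map (algebraMap k K) (poly v c h)) x ∈ ratRing K S := by
  obtain ⟨g, hg, hgz⟩ := genM3 (F := F) hn v hv hv1 h hh
  refine ⟨g, hg, fun k _ _ _ _ c hc => ?_⟩
  obtain ⟨S, hS, hz, -⟩ := hgz k c hc
  exact ⟨S, hS, fun K _ _ x _ => zeta_mem _ x S (fun W E hW hE => hz K W E hW hE)⟩

end Pool.Agent.Results.MP_b91a16_ag.GenericThreeVariables
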