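import Mathlib
import Pool.Agent.TH216.LX.Lx4
import Pool.Agent.TH216.LX.F2

/-!
# The motivic monodromy conjecture at the origin for generic coefficients at the vertices

Let `f = ∑_j c_j x ^ (v j) + h` be a polynomial in `n` variables over a field `k ⊂ ℂ`, where `h` is an
ARBITRARY polynomial over a subfield `F ⊂ k` (`k = F = ℂ` is allowed), whose exponents are in the
Newton polyhedron `conv {v j} + ℝ_{≥ 0} ^ n`, and the coefficients `c_j ∈ k` are generic: `g(c) ≠ 0` for
a certain nonzero polynomial `g` with coefficients in `F`. So for given `h` only the coefficients at
the vertices `v j` have to be generic. If `n ≤ 3` and the `v j` are the vertices of the Newton polyhedron, there is no further condition.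
If `n = 4` and the `v j` are the vertices, we suppose that every facet is a simplex or `B1` in some
direction, or that its candidate pole `- |a| / N_a` is `-1` or comes also from a facet which contains a
suitable simplex which is not B1. In general we suppose for the other candidate poles that the facets
through a common face, if the face is not a simplex and they all have this candidate pole, are `B1` in
a common direction; for instance that the Newton polyhedron is simplicial and the `v j` are its
vertices.
There is no condition on the exponents of `h` on the facets. Then the local motivic zeta function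
`Z_{f,0}(T)` at the origin lies in the ring generated by `T` and finitely many `1 / (1 - 𝕃 ^ a T ^ b)`
with `a < 0 < b` such that `a / b` is a root of the Bernstein-Sato polynomial `b_f`, and even of the
local Bernstein-Sato polynomial of `f` at the origin.

Method. If the `c_j` are algebraically independent over `F`, the functional equation of the
Bernstein-Sato polynomial gives an identity in a polynomial ring with one variable for every `v j`.
It is turned into a multiplicative identity for the series
`∑_u q ^ (-|u|) F (⟨u, v_1⟩ - t, …, ⟨u, v_k⟩ - t)`, `F` a difference polynomial applied to the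
Heaviside function of the orthant, for every integer `q ≥ 2`. On the other side, for the arcs with
origin `0` only the points `u` with all `u i > 0` occur, which see only exponents of `h` in the convex
hull of the `v j`; and the classes of the zero sets of the face polynomials in the tori satisfy
linear relations, one for each variable which has exponent `1` in one monomial of a face and does not
occur in the others; so the zeta function is a combination of universal series in `q ^ (-1)` and
`T`. The multiplicative identity shows that for every `q ≥ 2` these universal series have no poles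
on `log |T| / log q = σ` if `-σ` is not a root, hence that the factors `1 - q ^ (-a) T ^ N` with
`a / N = σ` cancel identically, and `q` can be replaced by `𝕃`. Gröbner bases in the Weyl algebra over
`F(c_1, …, c_r)` compare the generic Bernstein-Sato polynomial with the one of a single member.

For `n = 3` there is one kind of compact facet which is neither a simplex nor contains a triangle
which is not B1, the quadrangle with the vertices `(b, 0, 0)`, `(0, 0, b)`, `(1, 1, 0)`, `(0, 1, 1)`,
`b ≥ 2`, up to the order of the coordinates. It is not B1 in any direction, and its candidate pole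
`-(b + 1) / b` is a root: the polynomial identity is evaluated on the line where all its linear
factors vanish, which meets the zero set of the further terms to higher order than the one of the
denominator.
-/

set_option autoImplicit false

namespace Pool.Agent.Results.MP_b91a16_ag.GenericVertices

open MvPolynomial Pool.Agent.W428.MOT Pool.Agent.W425.MM
open Pool.Agent.TH216.HD Pool.Agent.TH216.HDL Pool.Agent.TH216.HDF

/-- **The motivic monodromy conjecture at the origin (Bernstein-Sato form) for the polynomials
`f = ∑_j c_j x ^ (v j) + h` with generic coefficients `c_j`: all Newton polyhedra for `n ≤ 3`, simplices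
and `B1`-facets for `n = 4`, simplices and `B1`-facets with compatible directions for `n ≥ 5`.**

`poly v c h` is the polynomial `f = ∑_j c_j x ^ (v j) + h`. `InPoly v w` says that `w` is in the Newton
polyhedron `conv {v j} + ℝ_{≥ 0} ^ n`. `Vertices v` says that the `v j` are the vertices of this
polyhedron: no `v j` is in the Newton polyhedron of the other `v k`.

`HypF v` says that one of the following holds:
(1) `n ≤ 3` and `Vertices v`;
(2) `n = 4`, `Vertices v`, and every ray `a` of the normal fan of the Newton polyhedron (`IsRay v a`)
with `N_a := ordA v a = min_j ⟨a, v j⟩ > 0` satisfies (i), (ii) or (iii);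
(3) every such ray `a` satisfies (i), (ii) or (iv), where
* (i) `|a| = N_a` (the candidate pole is `-1`);
* (ii) `|a| / N_a = |a'| / N_{a'}` for some `a' ∈ ℕ ^ n` with `N_{a'} > 0` and `NonB1 v True a'`: there is
  a set `J` of `#{i | a' i ≠ 0}` elements with `⟨a', v j⟩ = N_{a'}` for `j ∈ J` such that the vectors
  `(v j i)_{a' i ≠ 0}`, `j ∈ J`, are linearly independent, such that no variable `x_i` with
  `a' i ≠ 0` occurs in exactly one of the monomials `x ^ (v j)`, `j ∈ J`, and there with exponent `1`,
  and such that (a condition only if some `a' i = 0`) for all `l` with `⟨a', v l⟩ = N_{a'}`, if `v l`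
  agrees with `∑_{j ∈ J} c_j (v j)` in the coordinates `i` with `a' i ≠ 0`, then
  `∑_j c_j s(v j) ≤ s(v l)`, `s(w) = ∑_{a' i = 0} w_i`;
* (iii) the facet of `a` is a simplex (`SimpL v a`): the vectors `(v j i)_{a i ≠ 0}`, for the `j` with
  `⟨a, v j⟩ = N_a`, are linearly independent; or it is B1 in some direction `i` (`B1L v i a`): `a i ≠ 0`,
  and exactly one of the monomials `x ^ (v j)` with `⟨a, v j⟩ = N_a` is divisible by `x_i`, and it is
  not divisible by `x_i ^ 2`;
* (iv) `LocF v σ` for `σ = lev v a = |a| / N_a`. For a set `A` of variables and a set `τ` of indices `j`
  consider the rays `a'` with `N_{a'} > 0`, `a' i = 0` for `i ∉ A` and `⟨a', v j⟩ = N_{a'}` for `j ∈ τ`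
  (`RayAt v A τ a'`). If there are such rays and `|a'| / N_{a'} = σ` for all of them, if every variable
  `x_i`, `i ∈ A`, occurs in some `x ^ (v j)`, `j ∈ τ`, and if the vectors `(v j i)_{i ∈ A}`, `j ∈ τ`, are
  linearly dependent (`Dep v A τ`), then there is one `i` such that the facets of all these rays are B1
  in the direction `i`.

`zeta f x` is the local motivic zeta function `Z_{f,x}(T)` of the problem, for a point `x` with
coordinates in `K`, here `x = 0`. `IsLocalBFunction f b` says that `b(s) f ^ s = P(s) f ^ (s + 1)` for a
differential operator `P(s)` with formal power series at the origin as coefficients, and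
`IsBFunction f b` says the same for a differential operator `P(s)` in the Weyl algebra; in particular
`b_f` is one of the latter polynomials `b`, and the local Bernstein-Sato polynomial at the origin is
one of the former ones. -/
theorem result (F : Type) [Field F] [Algebra F ℂ] {n r : ℕ} (hr : 0 < r) (v : Fin r → Fin n → ℕ)
    (hv : Function.Injective v) (hv0 : ∀ j, v j ≠ 0)
    (h : MvPolynomial (Fin n) F) (hh : ∀ w ∈ h.support, InPoly v w)
    (hL : HypF v) :
    ∃ g : MvPolynomial (Fin r) F, g ≠ 0 ∧
      ∀ (k : Type) [Field k] [Algebra F k] [Algebra k ℂ] [IsScalarTower F k ℂ] (c : Fin r → k),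
      aeval c g ≠ 0 →
      ∃ S : Finset (ℤ × ℤ),
        (∀ p ∈ S, p.1 < 0 ∧ 0 < p.2 ∧
          (∀ b : Polynomial ℂ,
            Pool.Agent.H628R4.TP.IsBFunction (poly v (fun j => algebraMap k ℂ (c j)) h) b →
            b.eval ((p.1 : ℂ) / p.2) = 0) ∧
          ∀ b : Polynomial ℂ,
            Pool.Agent.H628R4.TP.IsLocalBFunction (poly v (fun j => algebraMap k ℂ (c j)) h) b →
            b.eval ((p.1 : ℂ) / p.2) = 0) ∧
        ∀ (K : Type) [Field K] [Algebra k K],
          zeta (MvPolynomial.map (algebraMap k K) (poly v c h)) 0 ∈ ratRing K S := by
  obtain ⟨g, hg, hgz⟩ := Pool.Agent.TH216.LX.genFP (F := F) hr v hv hv0 h hh hL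
  refine ⟨g, hg, fun k _ _ _ _ c hc => ?_⟩
  obtain ⟨S, hS, hz⟩ := hgz k c hc
  exact ⟨S, fun p hp => ⟨(hS p hp).1, (hS p hp).2.1,
    fun b hb => (hS p hp).2.2 b (Pool.Agent.TH216.LX.isLocal_of hb), (hS p hp).2.2⟩,
    fun K _ _ => Pool.Agent.TH216.LX.zeta_mem0 _ S fun W E hW hE hWD => hz K W E hW hE hWD⟩

end Pool.Agent.Results.MP_b91a16_ag.GenericVertices
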